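import Pool.Agent.Lib.Pb69c94.Space

/-!
# A Lindelöf `ω`-stable space whose square is not Lindelöf (in ZFC)

`T` is an Aronszajn tree of finite modifications of a coherent family of finite-to-one functions
`Iio a → ℕ`.  For a strict linear order `R` on `ℕ` (we use `<` and `>`) the space `Sp R` is the
tree `T` in which a basic neighbourhood of `t` consists of all `u` agreeing with `t` up to some
`g < ht t` such that `u` is an initial segment of `t` or lies `R`-lexicographically to the left
of `t`.  The space `X` is the topological sum of `Sp (<)` and `Sp (>)`.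
-/

namespace Pool.Agent.Results.MP_b69c94_gt.LindelofSquare

open Set Topology Function

universe u

/-- `N` is a network of the space `Y`: every open set is a union of members of `N`. -/
def IsNetwork {Y : Type u} [TopologicalSpace Y] (N : Set (Set Y)) : Prop :=
  ∀ U : Set Y, IsOpen U → ∃ S : Set (Set Y), S ⊆ N ∧ U = ⋃₀ S

/-- A space is cosmic if it has a countable network. -/
def Cosmic (Y : Type u) [TopologicalSpace Y] : Prop :=
  ∃ N : Set (Set Y), N.Countable ∧ IsNetwork N

/-- `X` is `ω`-stable: every (Tychonoff) continuous image `Y` of `X` that admits a condensation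
(continuous bijection) onto a (Tychonoff) second countable space is cosmic. -/
def OmegaStable (X : Type u) [TopologicalSpace X] : Prop :=
  ∀ (Y : Type u) [TopologicalSpace Y] [T35Space Y] (f : X → Y), Continuous f → Surjective f →
    (∃ (M : Type u) (_ : TopologicalSpace M), T35Space M ∧ SecondCountableTopology M ∧
      ∃ g : Y → M, Continuous g ∧ Bijective g) →
    Cosmic Y

/-- A space with a base of clopen sets is completely regular. -/
lemma completelyRegular_of_clopen {X : Type u} [TopologicalSpace X]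
    (h : ∀ (x : X) (U : Set X), IsOpen U → x ∈ U → ∃ V, IsClopen V ∧ x ∈ V ∧ V ⊆ U) :
    CompletelyRegularSpace X := by
  classical
  rw [completelyRegularSpace_iff_isOpen]
  intro x U hU hx
  obtain ⟨V, hV, hxV, hVU⟩ := h x U hU hx
  refine ⟨fun y => if y ∈ V then 0 else 1, ?_, by simp [hxV], ?_⟩
  · refine IsLocallyConstant.continuous (IsLocallyConstant.iff_exists_open _ |>.2 ?_)
    intro y
    by_cases hy : y ∈ V
    · exact ⟨V, hV.isOpen, hy, fun z hz => by simp [hy, hz]⟩
    · refine ⟨Vᶜ, hV.compl.isOpen, hy, fun z hz => ?_⟩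
      have hz' : z ∉ V := hz
      simp [hy, hz']
  · intro y hy
    have : y ∉ V := fun hyV => hy (hVU hyV)
    simp [this]

open Pool.Agent.Lib.Pb69c94

/-- The counterexample. -/
abbrev XX : Type := Sp (· < ·) ⊕ Sp (· > ·)

lemma clopen_base {R : ℕ → ℕ → Prop} (hR : Good R) (x : Sp R) (U : Set (Sp R)) (hU : IsOpen U)
    (hx : x ∈ U) : ∃ V, IsClopen V ∧ x ∈ V ∧ V ⊆ U := by
  obtain ⟨g, hg, hsub⟩ := isOpen_iff.1 hU x hx
  exact ⟨Nb R x g, ⟨isClosed_Nb hR hg, isOpen_Nb hR⟩, mem_Nb_self hg, hsub⟩

lemma t35 : T35Space XX := by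
  have := t2 good_lt
  have := t2 good_gt
  have : CompletelyRegularSpace XX := by
    apply completelyRegular_of_clopen
    rintro (x | x) U hU hx
    · obtain ⟨V, hV, hxV, hVU⟩ := clopen_base good_lt x (Sum.inl ⁻¹' U)
        (hU.preimage continuous_inl) hx
      refine ⟨Sum.inl '' V, ⟨?_, ?_⟩, ⟨x, hxV, rfl⟩, ?_⟩
      · exact (IsClosedEmbedding.inl).isClosedMap _ hV.1
      · exact isOpenMap_inl _ hV.2
      · rintro _ ⟨y, hy, rfl⟩; exact hVU hy
    · obtain ⟨V, hV, hxV, hVU⟩ := clopen_base good_gt x (Sum.inr ⁻¹' U)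
        (hU.preimage continuous_inr) hx
      refine ⟨Sum.inr '' V, ⟨?_, ?_⟩, ⟨x, hxV, rfl⟩, ?_⟩
      · exact (IsClosedEmbedding.inr).isClosedMap _ hV.1
      · exact isOpenMap_inr _ hV.2
      · rintro _ ⟨y, hy, rfl⟩; exact hVU hy
  exact { }

lemma omegaStable : OmegaStable XX := by
  intro Y _ _ f hf hsurj ⟨M, tM, hM, hM2, g, hg, hbij⟩
  have hcr : (Set.range (g ∘ f)).Countable := by
    have h1 : (Set.range ((g ∘ f) ∘ Sum.inl)).Countable :=
      countable_range good_lt _ ((hg.comp hf).comp continuous_inl)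
    have h2 : (Set.range ((g ∘ f) ∘ Sum.inr)).Countable :=
      countable_range good_gt _ ((hg.comp hf).comp continuous_inr)
    refine (h1.union h2).mono ?_
    rintro _ ⟨x | x, rfl⟩
    · exact Or.inl ⟨x, rfl⟩
    · exact Or.inr ⟨x, rfl⟩
  have hY : (Set.univ : Set Y).Countable := by
    refine Set.countable_of_injective_of_countable_image (f := g) hbij.1.injOn ?_
    refine hcr.mono ?_
    rintro _ ⟨y, -, rfl⟩
    obtain ⟨x, rfl⟩ := hsurj y
    exact ⟨x, rfl⟩
  refine ⟨(fun y => {y}) '' (Set.univ : Set Y), hY.image _, ?_⟩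
  intro U _
  refine ⟨(fun y => {y}) '' U, Set.image_mono (Set.subset_univ U), ?_⟩
  ext y
  simp

/-- There is a Tychonoff Lindelöf `ω`-stable space whose square is not Lindelöf. -/
theorem result : ∃ (X : Type) (_ : TopologicalSpace X),
    T35Space X ∧ LindelofSpace X ∧ OmegaStable X ∧
      ¬ LindelofSpace (X × X) ∧ ¬ LindelofSpace (Fin 2 → X) := by
  have hnot : ¬ LindelofSpace (XX × XX) := by
    intro h
    apply not_lindelof_prod
    have hemb : IsClosedEmbedding
        (Prod.map (Sum.inl : Sp (· < ·) → XX) (Sum.inr : Sp (· > ·) → XX)) :=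
      IsClosedEmbedding.inl.prodMap IsClosedEmbedding.inr
    exact hemb.LindelofSpace
  refine ⟨XX, inferInstance, t35, ?_, omegaStable, hnot, ?_⟩
  · have := lindelof good_lt
    have := lindelof good_gt
    infer_instance
  · intro h
    apply hnot
    exact LindelofSpace.of_continuous_surjective
      (Homeomorph.finTwoArrow (X := XX)).continuous (Homeomorph.finTwoArrow (X := XX)).surjective

end Pool.Agent.Results.MP_b69c94_gt.LindelofSquare
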